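import Pool.Agent.W581.HQ.Stm

/-! Project HQ, part HQ-ID: the primitive of `h`. -/

set_option autoImplicit false

namespace Pool.Agent.W637.HQ.Id

open MeasureTheory Set Filter Topology
open Pool.Agent.W581.HQ

lemma hh_one {p : ℝ} {φ τ : ℝ → ℝ} {s : ℝ} (h1 : τ 1 = 1) (hs : 1 ≤ s) :
    hh p φ τ s = 2 * s ^ (p - 1) * deriv φ (τ s) := by
  rcases eq_or_lt_of_le hs with rfl | h
  · simp [hh, h1]
  · simp [hh, not_le.mpr h]

lemma cont_d {p : ℝ} {φ : ℝ → ℝ} (hD : DH p φ) : Continuous (deriv φ) :=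
  hD.sm.continuous_deriv (by norm_num)

lemma hasD1 {p : ℝ} {φ : ℝ → ℝ} (hD : DH p φ) (t : ℝ) : HasDerivAt φ (deriv φ t) t :=
  ((hD.sm.differentiable (by norm_num)) t).hasDerivAt

lemma hasD2 {p : ℝ} {φ : ℝ → ℝ} (hD : DH p φ) (t : ℝ) :
    HasDerivAt (deriv φ) (deriv (deriv φ) t) t := by
  have h : ContDiff ℝ 1 (deriv φ) := by
    have := hD.sm
    rw [show (2 : WithTop ℕ∞) = 1 + 1 by norm_num, contDiff_succ_iff_deriv] at this
    exact this.2.2
  exact ((h.differentiable (by norm_num)) t).hasDerivAt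

lemma cont_right {p : ℝ} {φ τ : ℝ → ℝ} (hD : DH p φ) (hc : ContinuousOn τ (Ici 1)) :
    ContinuousOn (fun s => 2 * s ^ (p - 1) * deriv φ (τ s)) (Ici 1) := by
  refine ContinuousOn.mul (continuousOn_const.mul ?_) ?_
  · intro s hs
    exact (Real.continuousAt_rpow_const s (p - 1)
      (Or.inl (by have : (1 : ℝ) ≤ s := hs; positivity))).continuousWithinAt
  · exact (cont_d hD).comp_continuousOn hc

lemma cont_hh {p : ℝ} {φ τ : ℝ → ℝ} (hD : DH p φ) (h1 : τ 1 = 1)
    (hc : ContinuousOn τ (Ici 1)) : Continuous (hh p φ τ) := by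
  rw [← continuousOn_univ, ← Iic_union_Ici (a := (1 : ℝ))]
  refine ContinuousOn.union_of_isClosed ?_ ?_ isClosed_Iic isClosed_Ici
  · refine ContinuousOn.congr (f := fun s => 2 * deriv φ 1 * s) (by fun_prop) ?_
    intro s hs
    have : s ≤ 1 := hs
    simp [hh, this]
  · refine (cont_right hD hc).congr ?_
    intro s hs
    exact hh_one h1 hs

theorem main : S_ID := by
  intro p φ hD tc hT τ hC s hs
  have hp0 : p ≠ 0 := by have := hD.p1; positivity
  set F : ℝ → ℝ := fun s => s * hh p φ τ s / 2 - (∫ u in (0 : ℝ)..s, hh p φ τ u)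
    - (p - 2) / p * deriv φ 1 - s ^ p * (φ (τ s) - τ s * deriv φ (τ s)) with hF
  have hcont := cont_hh hD hC.one hC.cont
  have hint : ∀ s, HasDerivAt (fun s => ∫ u in (0 : ℝ)..s, hh p φ τ u) (hh p φ τ s) s :=
    fun s => (hcont.integral_hasStrictDerivAt 0 s).hasDerivAt
  have hφ : Continuous φ := hD.sm.continuous
  -- value at 1
  have hF1 : F 1 = 0 := by
    have hi : (∫ u in (0 : ℝ)..1, hh p φ τ u) = deriv φ 1 := by
      have : (∫ u in (0 : ℝ)..1, hh p φ τ u) = ∫ u in (0 : ℝ)..1, 2 * deriv φ 1 * u := by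
        apply intervalIntegral.integral_congr
        intro u hu
        rw [uIcc_of_le zero_le_one] at hu
        simp [hh, hu.2]
      rw [this, intervalIntegral.integral_const_mul, integral_id]
      ring
    have he := hD.e1
    have hh1 : hh p φ τ 1 = 2 * deriv φ 1 := by simp [hh]
    simp only [hF, hi, hh1, hC.one, Real.one_rpow]
    have hφ1 : φ 1 = 2 * deriv φ 1 / p := by field_simp; linarith
    rw [hφ1]
    field_simp
    ring
  -- continuity
  have hFc : ContinuousOn F (Icc 1 s) := by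
    have hsub : Icc 1 s ⊆ Ici (1 : ℝ) := Icc_subset_Ici_self
    have hτ := hC.cont.mono hsub
    have hI : Continuous (fun s => ∫ u in (0 : ℝ)..s, hh p φ τ u) :=
      continuous_iff_continuousAt.mpr fun s => (hint s).continuousAt
    have hr : ContinuousOn (fun s : ℝ => s ^ p) (Icc 1 s) := by
      intro x hx
      exact (Real.continuousAt_rpow_const x p
        (Or.inl (by have := hx.1; positivity))).continuousWithinAt
    refine ContinuousOn.sub (ContinuousOn.sub (ContinuousOn.sub ?_ hI.continuousOn)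
      continuousOn_const) (hr.mul ?_)
    · exact ((continuous_id.mul hcont).div_const 2).continuousOn
    · exact (hφ.comp_continuousOn hτ).sub (hτ.mul ((cont_d hD).comp_continuousOn hτ))
  -- derivative
  have hFd : ∀ x ∈ Ioo 1 s, HasDerivAt F 0 x := by
    intro x hx
    have hx1 : 1 < x := hx.1
    have hx0 : 0 < x := by linarith
    obtain ⟨hm1, hm2⟩ := hC.mem x hx1
    have hge := hT.ge
    have ht1 : 0 < 1 + τ x := by linarith
    obtain ⟨hK, _, hφ2⟩ := hT.pos (τ x) ⟨hm1, hm2.le⟩
    have hτ := hC.der x hx1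
    set t := τ x with ht
    set D := deriv φ t with hDd
    set E := deriv (deriv φ) t with hE
    set T' := -(KK p φ t) / ((1 + t) * E * x) with hT'
    have hTE : T' * E = -(KK p φ t) / ((1 + t) * x) := by
      rw [hT']; field_simp
    have hd1 : HasDerivAt (fun s => φ (τ s)) (D * T') x := (hasD1 hD t).comp x hτ
    have hd2 : HasDerivAt (fun s => deriv φ (τ s)) (E * T') x := (hasD2 hD t).comp x hτ
    have hxp : HasDerivAt (fun s : ℝ => s ^ p) (p * x ^ (p - 1)) x :=
      Real.hasDerivAt_rpow_const (Or.inl hx0.ne')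
    have hxp1 : HasDerivAt (fun s : ℝ => s ^ (p - 1)) ((p - 1) * x ^ (p - 1 - 1)) x :=
      Real.hasDerivAt_rpow_const (Or.inl hx0.ne')
    have hloc : hh p φ τ =ᶠ[𝓝 x] fun s => 2 * s ^ (p - 1) * deriv φ (τ s) := by
      filter_upwards [lt_mem_nhds hx1] with y hy
      exact hh_one hC.one (le_of_lt hy)
    have hdh : HasDerivAt (hh p φ τ) (2 * ((p - 1) * x ^ (p - 1 - 1)) * D
        + 2 * x ^ (p - 1) * (E * T')) x :=
      ((hxp1.const_mul 2).mul hd2).congr_of_eventuallyEq hloc
    have hhx : hh p φ τ x = 2 * x ^ (p - 1) * D := hh_one hC.one hx1.le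
    have hall := ((((hasDerivAt_id x).mul hdh).div_const 2).sub (hint x)).sub_const
      ((p - 2) / p * deriv φ 1) |>.sub (hxp.mul (hd1.sub (hτ.mul hd2)))
    have e1 : x ^ (p - 1) = x * x ^ (p - 1 - 1) := by
      rw [Real.rpow_sub_one hx0.ne' (p - 1)]; field_simp
    have e2 : x ^ p = x * x * x ^ (p - 1 - 1) := by
      have : x ^ p = x * x ^ (p - 1) := by
        rw [Real.rpow_sub_one hx0.ne' p]; field_simp
      rw [this, e1]; ring
    refine hall.congr_deriv ?_
    have hv : ((fun s => φ (τ s)) - τ * fun s => deriv φ (τ s)) x = φ t - t * D := rfl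
    rw [hv]
    simp only [id, hhx]
    have hKK : KK p φ t = (p * t + p - 2) * D - p * φ t := rfl
    have hET : E * T' = -((p * t + p - 2) * D - p * φ t) / ((1 + t) * x) := by
      rw [mul_comm, hTE, hKK]
    rw [hET, e2, e1]
    generalize x ^ (p - 1 - 1) = X
    have hx0' : x ≠ 0 := hx0.ne'
    have ht1' : 1 + t ≠ 0 := ht1.ne'
    have hTT : D * T' - (T' * D + t * (-((p * t + p - 2) * D - p * φ t) / ((1 + t) * x)))
      = - (t * (-((p * t + p - 2) * D - p * φ t) / ((1 + t) * x))) := by ring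
    rw [hTT]
    field_simp
    ring
  have hz : F s = 0 := by
    rcases eq_or_lt_of_le hs with rfl | h
    · exact hF1
    · obtain ⟨c, _, hc⟩ := exists_hasDerivAt_eq_slope F (fun _ => 0) h hFc hFd
      rw [hF1] at hc
      have hne : s - 1 ≠ 0 := by linarith
      field_simp at hc
      linarith
  have := hz
  simp only [hF] at this
  linarith

end Pool.Agent.W637.HQ.Id
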